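import Pool.Agent.H54.UV.BK

/-!
# ABSU: the abstract inequality of the unified theorem (helper54)
-/

namespace Pool.Agent.H54.UV

open Finset Matrix Pool.Agent.H91.UV
open Pool.Agent.H70.UN (PosFam ERR E1 T_FAMU T_LASF)

/-- the bookkeeping -/
theorem book {Y X C : Type} [Fintype X] [Fintype C] (A : Finset Y) (D T1 : Y → X → ℝ)
    (l w0 w1 w2 : Y → X → C → ℝ) (de Mx T : ℝ) (hde : 0 < de) (hMx : 1 ≤ Mx)
    (hmean : ∀ a ∈ A, ∑ x, D a x = Fintype.card X) (hbd : ∀ a x, |D a x| ≤ Mx)
    (herr : ∀ a ∈ A, ∀ x, |∑ c, l a x c - de - T1 a x| ≤ de / (4 * Mx))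
    (hls : ∀ a ∈ A, ∀ x c, l a x c = w1 a x c - w2 a x c - w0 a x c)
    (h1 : -T ≤ ∑ a ∈ A, ∑ x, D a x * T1 a x)
    (h2 : -T ≤ ∑ a ∈ A, ∑ x, D a x * ∑ c, w0 a x c)
    (h3 : ∀ c, ∑ a ∈ A, ∑ x, D a x * w1 a x c ≤ T)
    (h4 : ∀ c, -T ≤ ∑ a ∈ A, ∑ x, D a x * w2 a x c) :
    3 / 4 * de * (A.card * Fintype.card X) ≤ (2 * Fintype.card C + 2) * T := by
  have e1 : ∑ a ∈ A, ∑ x, D a x * ∑ c, l a x c =
      ∑ c, ∑ a ∈ A, ∑ x, D a x * w1 a x c - ∑ c, ∑ a ∈ A, ∑ x, D a x * w2 a x c -
        ∑ a ∈ A, ∑ x, D a x * ∑ c, w0 a x c := by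
    have s1 : ∀ w : Y → X → C → ℝ, ∑ c, ∑ a ∈ A, ∑ x, D a x * w a x c =
        ∑ a ∈ A, ∑ x, D a x * ∑ c, w a x c := by
      intro w
      rw [Finset.sum_comm]
      refine Finset.sum_congr rfl fun a _ => ?_
      rw [Finset.sum_comm]
      refine Finset.sum_congr rfl fun x _ => ?_
      rw [Finset.mul_sum]
    rw [s1, s1, ← Finset.sum_sub_distrib, ← Finset.sum_sub_distrib]
    refine Finset.sum_congr rfl fun a ha => ?_
    rw [← Finset.sum_sub_distrib, ← Finset.sum_sub_distrib]
    refine Finset.sum_congr rfl fun x _ => ?_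
    rw [Finset.sum_congr rfl fun c _ => hls a ha x c, Finset.sum_sub_distrib,
      Finset.sum_sub_distrib]
    ring
  have e2 : ∑ c, ∑ a ∈ A, ∑ x, D a x * w1 a x c ≤ Fintype.card C * T := by
    refine (Finset.sum_le_sum fun c _ => h3 c).trans ?_
    rw [Finset.sum_const, Finset.card_univ, nsmul_eq_mul]
  have e3 : -(Fintype.card C * T) ≤ ∑ c, ∑ a ∈ A, ∑ x, D a x * w2 a x c := by
    refine le_trans ?_ (Finset.sum_le_sum fun c _ => h4 c)
    rw [Finset.sum_const, Finset.card_univ, nsmul_eq_mul]
    linarith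
  have e4 : de * (A.card * Fintype.card X) + ∑ a ∈ A, ∑ x, D a x * T1 a x -
      de / 4 * (A.card * Fintype.card X) ≤ ∑ a ∈ A, ∑ x, D a x * ∑ c, l a x c := by
    have s1 : ∀ a ∈ A, de * Fintype.card X + ∑ x, D a x * T1 a x -
        de / 4 * Fintype.card X ≤ ∑ x, D a x * ∑ c, l a x c := by
      intro a ha
      have s2 : ∀ x, D a x * de + D a x * T1 a x - de / 4 ≤ D a x * ∑ c, l a x c := by
        intro x
        have s3 := herr a ha x
        have s4 : |D a x * (∑ c, l a x c - de - T1 a x)| ≤ de / 4 := by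
          rw [abs_mul]
          calc |D a x| * |∑ c, l a x c - de - T1 a x| ≤ Mx * (de / (4 * Mx)) :=
                mul_le_mul (hbd a x) s3 (abs_nonneg _) (by linarith)
            _ = de / 4 := by
                have : Mx ≠ 0 := by positivity
                field_simp
        have s5 := (abs_le.1 s4).1
        nlinarith
      have s6 := Finset.sum_le_sum fun x (_ : x ∈ univ) => s2 x
      rw [Finset.sum_sub_distrib, Finset.sum_add_distrib, ← Finset.sum_mul, hmean a ha,
        Finset.sum_const, Finset.card_univ, nsmul_eq_mul] at s6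
      linarith
    have s7 := Finset.sum_le_sum s1
    rw [Finset.sum_sub_distrib, Finset.sum_add_distrib, Finset.sum_const, Finset.sum_const,
      nsmul_eq_mul, nsmul_eq_mul] at s7
    linarith
  rw [e1] at e4
  linarith

/-- the mean over a formula -/
theorem mean_hs {Θ : Type} [Fintype Θ] [DecidableEq Θ] [AddCommGroup Θ] {N q : ℕ}
    (D : (Fin N → Θ) → ℝ) (hD : ∑ z, D z = (Fintype.card Θ : ℝ) ^ N) (a : Fin N → Fin q → Θ) :
    ∑ x : (Fin N → Θ) × (Fin N → Fin q), D (fun k => x.1 k + a k (x.2 k)) =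
      Fintype.card ((Fin N → Θ) × (Fin N → Fin q)) := by
  rw [Fintype.sum_prod_type, Finset.sum_comm]
  have h1 : ∀ y : Fin N → Fin q, ∑ x : Fin N → Θ, D (fun k => x k + a k (y k)) =
      (Fintype.card Θ : ℝ) ^ N := by
    intro y
    rw [← hD]
    exact Fintype.sum_equiv (Equiv.addRight (fun k => a k (y k))) _ _ fun x => rfl
  rw [Finset.sum_congr rfl fun y _ => h1 y, Finset.sum_const, Finset.card_univ, nsmul_eq_mul,
    Fintype.card_prod, Fintype.card_pi, Fintype.card_pi]
  simp only [Fintype.card_fin, Finset.prod_const, Finset.card_univ]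
  push_cast
  ring

/-- the three positive parts of the loss of a clause -/
noncomputable def ww (s : Prop) [Decidable s] (l : ℝ) : Fin 3 → ℝ :=
  ![if s then -l else 0, if s then 0 else max l 0, if s then 0 else max (-l) 0]

theorem ww_nonneg (s : Prop) [Decidable s] (l : ℝ) (h : s → l ≤ 0) (t : Fin 3) :
    0 ≤ ww s l t := by
  unfold ww
  by_cases hs : s
  · have := h hs
    fin_cases t <;> simp [hs, this]
  · fin_cases t <;> simp [hs]

theorem ww_sub (s : Prop) [Decidable s] (l : ℝ) : l = ww s l 1 - ww s l 2 - ww s l 0 := by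
  unfold ww
  by_cases hs : s
  · simp [hs]
  · simp only [hs, if_false]
    change l = max l 0 - max (-l) 0 - 0
    rcases le_total 0 l with h | h
    · rw [max_eq_left h, max_eq_right (by linarith)]
      ring
    · rw [max_eq_right h, max_eq_left (by linarith)]
      ring

theorem ww_sum (s : Prop) [Decidable s] (l : ℝ) (h : s → l ≤ 0) :
    ww s l 0 + ww s l 1 + ww s l 2 = |l| := by
  unfold ww
  by_cases hs : s
  · simp only [hs, if_true]
    change -l + 0 + 0 = |l|
    rw [abs_of_nonpos (h hs)]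
    ring
  · simp only [hs, if_false]
    change 0 + max l 0 + max (-l) 0 = |l|
    rcases le_total 0 l with h | h
    · rw [max_eq_left h, max_eq_right (by linarith), abs_of_nonneg h]
      ring
    · rw [max_eq_right h, max_eq_left (by linarith), abs_of_nonpos h]
      ring

theorem ww_viol (s : Prop) [Decidable s] (l : ℝ) (t : Fin 3) (ht : t ≠ 0) (h : ww s l t ≠ 0) :
    ¬ s := by
  intro hs
  apply h
  unfold ww
  fin_cases t
  · exact absurd rfl ht
  · simp [hs]
  · simp [hs]

theorem pf_ABSU (hF : Pool.Agent.H70.UN.T_FAMU) : S_ABSU := by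
  classical
  intro Θ _ _ _ t ht1 ht2 N q d hq hd D Mx hMx hDM hDpos hDsum C _ V _ inF sat hV hviol M A J
    cell nb o G L lam0 ls F de S W K LAM hde hK hLAM hFm hcov hdis hG hL hlam hls1 hls2 hcert
    hS hW
  rcases A.eq_empty_or_nonempty with hA | ⟨a0, ha0⟩
  · right
    have hW0 : 0 ≤ W := le_trans (by positivity) hW
    rw [hA, Finset.card_empty]
    simp only [Nat.cast_zero, zero_mul]
    positivity
  obtain ⟨x0⟩ : Nonempty ((Fin N → Θ) × (Fin N → Fin q)) :=
    ⟨(fun _ => 0, fun _ => ⟨0, by omega⟩)⟩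
  obtain ⟨j0, hj0, -⟩ := hcov a0 ha0 x0
  have hS1 : 1 ≤ S := by
    refine le_trans ?_ (hS a0 ha0)
    refine le_trans ?_ (Finset.single_le_sum (f := fun j => ∑ i, (o j i : ℝ) ^ 2 + 1)
      (fun j _ => by positivity) hj0)
    have : (0 : ℝ) ≤ ∑ i, (o j0 i : ℝ) ^ 2 := by positivity
    linarith
  have hcov' : ∀ a x, ∃ j, a ∈ A → j ∈ J a ∧ x ∈ cell j := by
    intro a x
    by_cases ha : a ∈ A
    · obtain ⟨j, h1, h2⟩ := hcov a ha x
      exact ⟨j, fun _ => ⟨h1, h2⟩⟩
    · exact ⟨j0, fun h => absurd h ha⟩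
  choose jj hjj using hcov'
  have huni : ∀ a ∈ A, ∀ x j, j ∈ J a → x ∈ cell j → j = jj a x := by
    intro a ha x j h1 h2
    by_contra h3
    exact Set.disjoint_left.1 (hdis a ha j h1 (jj a x) (hjj a x ha).1 h3) h2 (hjj a x ha).2
  obtain ⟨c, hc⟩ : ∃ c : ℝ, c = (Fintype.card C : ℝ) := ⟨_, rfl⟩
  have hc0 : 0 ≤ c := by rw [hc]; positivity
  -- the families of matrices
  obtain ⟨P, hP⟩ : ∃ P : (b : Blk M nb o C) → (Fin N → Fin q → Θ) →
      Matrix (Fin (rk b)) (Fin (rk b)) ℝ, ∀ b a, P b a =
      mk (fun j i => if a ∈ A ∧ j ∈ J a then L a j i else 0)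
        (fun j => if a ∈ A ∧ j ∈ J a then lam0 a j else 0)
        (fun j s => if (a ∈ A ∧ j ∈ J a) ∧ inF a s.1 then 1 else 0) b := ⟨_, fun _ _ => rfl⟩
  obtain ⟨R, hR⟩ : ∃ R : (b : Blk M nb o C) → (Fin N → Θ) × (Fin N → Fin q) →
      Matrix (Fin (rk b)) (Fin (rk b)) ℝ, ∀ b x, R b x =
      mk (fun j i => if x ∈ cell j then G j x i else 0)
        (fun j => if x ∈ cell j then 1 else 0)
        (fun j s => if x ∈ cell j then ww (sat s.1 x) (ls j s.1 x) s.2 else 0) b :=
    ⟨_, fun _ _ => rfl⟩
  obtain ⟨T1, hT1⟩ : ∃ T1 : (Fin N → Fin q → Θ) → (Fin N → Θ) × (Fin N → Fin q) → ℝ,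
      ∀ a x, T1 a x = lam0 a (jj a x) + ∑ i, (L a (jj a x) i * G (jj a x) x i).trace :=
    ⟨_, fun _ _ => rfl⟩
  have hPp : ∀ b a, (P b a).PosSemidef := by
    intro b a
    rw [hP]
    refine mk_psd _ _ _ ?_ ?_ ?_ b
    · intro j i
      split_ifs
      · exact hL a j i
      · exact PosSemidef.zero
    · intro j
      split_ifs
      · exact hlam a j
      · exact le_refl _
    · intro j s
      split_ifs
      · exact zero_le_one
      · exact le_refl _
  have hRp : ∀ b x, (R b x).PosSemidef := by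
    intro b x
    rw [hR]
    refine mk_psd _ _ _ ?_ ?_ ?_ b
    · intro j i
      split_ifs with h
      · exact hG j x h i
      · exact PosSemidef.zero
    · intro j
      split_ifs
      · exact zero_le_one
      · exact le_refl _
    · intro j s
      split_ifs with h
      · exact ww_nonneg _ _ (fun h' => hls2 j s.1 x h h') _
      · exact le_refl _
  -- evaluation of the sums of traces
  have hev : ∀ (Q : Option (C × Fin 3) → Prop) [DecidablePred Q], ∀ a ∈ A, ∀ x,
      ∑ b ∈ univ.filter (fun b : Blk M nb o C => Q (kd b)), (P b a * R b x).trace =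
        (if Q none then T1 a x else 0) + ∑ s : C × Fin 3, if Q (some s) then
          (if inF a s.1 then ww (sat s.1 x) (ls (jj a x) s.1 x) s.2 else 0) else 0 := by
    intro Q _ a ha x
    simp only [hP, hR]
    rw [sum_mk]
    obtain ⟨hJ, hx⟩ := hjj a x ha
    rw [Finset.sum_eq_single (jj a x)]
    · simp only [ha, hJ, hx, true_and, if_true, mul_one]
      rw [hT1, add_comm (lam0 a (jj a x))]
      congr 1
      refine Finset.sum_congr rfl fun s _ => ?_
      by_cases hs : inF a s.1
      · simp only [hs, if_true, one_mul]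
      · simp only [hs, if_false, zero_mul]
    · intro j _ hj
      have h1 : ¬ (j ∈ J a ∧ x ∈ cell j) := fun h => hj (huni a ha x j h.1 h.2)
      by_cases h2 : j ∈ J a
      · have h3 : x ∉ cell j := fun h => h1 ⟨h2, h⟩
        simp only [h3, if_false, Matrix.mul_zero, Matrix.trace_zero, mul_zero,
          Finset.sum_const_zero, add_zero, ite_self]
      · simp only [h2, and_false, false_and, if_false, Matrix.zero_mul, Matrix.trace_zero,
          zero_mul, Finset.sum_const_zero, add_zero, ite_self]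
    · intro h
      exact absurd (Finset.mem_univ _) h
  have hsumF : ∀ a x, ∑ cl, (if inF a cl then ls (jj a x) cl x else 0) =
      ∑ cl ∈ F a, ls (jj a x) cl x := by
    intro a x
    rw [← Finset.sum_filter]
    refine Finset.sum_congr ?_ fun _ _ => rfl
    ext cl
    rw [Finset.mem_filter, hFm]
    exact ⟨fun h => h.2, fun h => ⟨Finset.mem_univ _, h⟩⟩
  have hcard1 : ∀ a x, a ∈ A → ∑ cl, (if inF a cl then |ls (jj a x) cl x| else 0) ≤ c := by
    intro a x ha
    have h1 : ∀ cl ∈ (univ : Finset C), (if inF a cl then |ls (jj a x) cl x| else 0) ≤ (1 : ℝ) := by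
      intro cl _
      split_ifs
      · exact hls1 _ cl x (hjj a x ha).2
      · exact zero_le_one
    refine (Finset.sum_le_sum h1).trans ?_
    rw [Finset.sum_const, Finset.card_univ, nsmul_eq_mul, mul_one, hc]
  have hcert' : ∀ a ∈ A, ∀ x, |∑ cl, (if inF a cl then ls (jj a x) cl x else 0) - de - T1 a x| ≤
      de / (4 * Mx) := by
    intro a ha x
    rw [hsumF, hT1]
    exact hcert a ha (jj a x) (hjj a x ha).1 x (hjj a x ha).2
  have htot : ∀ a ∈ A, ∀ x, ∑ b, (P b a * R b x).trace ≤ 2 * c + 1 := by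
    intro a ha x
    have h1 := hev (fun _ => True) a ha x
    rw [Finset.filter_true_of_mem (fun _ _ => trivial)] at h1
    rw [h1]
    simp only [if_true]
    rw [Fintype.sum_prod_type]
    have h2 : ∀ cl : C, ∑ s : Fin 3, (if inF a (cl, s).1 then
        ww (sat (cl, s).1 x) (ls (jj a x) (cl, s).1 x) (cl, s).2 else 0) =
        if inF a cl then |ls (jj a x) cl x| else 0 := by
      intro cl
      by_cases h3 : inF a cl
      · simp only [h3, if_true]
        rw [Fin.sum_univ_three]
        exact ww_sum _ _ (fun h' => hls2 _ cl x (hjj a x ha).2 h')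
      · simp only [h3, if_false, Finset.sum_const_zero]
    rw [Finset.sum_congr rfl fun cl _ => h2 cl]
    have h4 := hcard1 a x ha
    have h5 := (abs_le.1 (hcert' a ha x)).1
    have h6 : ∑ cl, (if inF a cl then ls (jj a x) cl x else 0) ≤
        ∑ cl, (if inF a cl then |ls (jj a x) cl x| else 0) := by
      refine Finset.sum_le_sum fun cl _ => ?_
      split_ifs
      · exact le_abs_self _
      · exact le_refl _
    have h7 : de / (4 * Mx) ≤ de := by
      rw [div_le_iff₀ (by linarith)]
      nlinarith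
    linarith
  obtain ⟨E, hE⟩ : ∃ E : ℝ, E = ERR (Fintype.card Θ) t K LAM ((3 * c + 1) * S) N d q :=
    ⟨_, rfl⟩
  obtain ⟨A', hA', hcard, hmain⟩ := hF Θ t ht1 ht2 N q d hq hd (Blk M nb o C) rk P R A
    (fun a => univ.filter (fun b => a ∈ A ∧ b.1 ∈ J a)) (2 * c + 1) ((3 * c + 1) * S) K LAM
    hPp hRp (by linarith) (by nlinarith) hK hLAM
    (fun b a ha => by
      rw [hP]
      refine mk_zero _ _ _ b ?_ ?_ ?_
      · intro i
        exact if_neg fun h => ha h.1
      · exact if_neg fun h => ha h.1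
      · intro s
        exact if_neg fun h => ha h.1.1)
    (fun a b hb => by
      have hb' : ¬ (a ∈ A ∧ b.1 ∈ J a) := by
        intro h
        exact hb (Finset.mem_filter.2 ⟨Finset.mem_univ _, h⟩)
      rw [hP]
      refine mk_zero _ _ _ b ?_ ?_ ?_
      · intro i
        exact if_neg hb'
      · exact if_neg hb'
      · intro s
        exact if_neg fun h => hb' h.1)
    (fun a ha => by
      have h1 := sum_rk (nb := nb) (o := o) (C := C) (J a)
      have h2 : univ.filter (fun b : Blk M nb o C => a ∈ A ∧ b.1 ∈ J a) =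
          univ.filter (fun b : Blk M nb o C => b.1 ∈ J a) := by
        ext b
        simp [ha]
      rw [h2]
      rw [← hc] at h1
      exact h1.trans (mul_le_mul_of_nonneg_left (hS a ha) (by linarith)))
    htot
  rw [← hE] at hmain
  obtain ⟨T, hT⟩ : ∃ T : ℝ, T = 2 * Mx * (2 * c + 1) *
      (A.card * Fintype.card ((Fin N → Θ) × (Fin N → Fin q))) * E := ⟨_, rfl⟩
  have hMx0 : 0 ≤ Mx := by linarith
  have hb := book A' (fun a x => D (fun k => x.1 k + a k (x.2 k))) T1
    (fun a x cl => if inF a cl then ls (jj a x) cl x else 0)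
    (fun a x cl => if inF a cl then ww (sat cl x) (ls (jj a x) cl x) 0 else 0)
    (fun a x cl => if inF a cl then ww (sat cl x) (ls (jj a x) cl x) 1 else 0)
    (fun a x cl => if inF a cl then ww (sat cl x) (ls (jj a x) cl x) 2 else 0)
    de Mx T hde hMx (fun a _ => mean_hs D hDsum a) (fun a x => hDM _)
    (fun a ha x => hcert' a (hA' ha) x)
    (fun a ha x cl => by
      by_cases h : inF a cl
      · simp only [h, if_true]
        exact ww_sub _ _
      · simp only [h, if_false]
        ring)
    (by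
      rw [hT]
      refine (hmain Mx D (univ.filter (fun b : Blk M nb o C => kd b = none)) hMx0 hDM
        hDpos).trans (le_of_eq ?_)
      refine Finset.sum_congr rfl fun a ha => Finset.sum_congr rfl fun x _ => ?_
      rw [hev (fun k => k = none) a (hA' ha) x]
      simp)
    (by
      rw [hT]
      refine (hmain Mx D (univ.filter (fun b : Blk M nb o C => ∃ cl, kd b = some (cl, 0)))
        hMx0 hDM hDpos).trans (le_of_eq ?_)
      refine Finset.sum_congr rfl fun a ha => Finset.sum_congr rfl fun x _ => ?_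
      rw [hev (fun k => ∃ cl, k = some (cl, 0)) a (hA' ha) x, Fintype.sum_prod_type]
      simp [Fin.sum_univ_three])
    (fun cl => by
      have h1 := hmain Mx (fun z => if V cl z then - D z else 0)
        (univ.filter (fun b : Blk M nb o C => kd b = some (cl, 1))) hMx0
        (fun z => by
          split_ifs
          · rw [abs_neg]
            exact hDM z
          · rw [abs_zero]
            exact hMx0) (hV cl).2
      rw [← hT] at h1
      have h2 : ∑ a ∈ A', ∑ x : (Fin N → Θ) × (Fin N → Fin q),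
          (if V cl (fun k => x.1 k + a k (x.2 k)) then - D (fun k => x.1 k + a k (x.2 k)) else 0) *
            ∑ b ∈ univ.filter (fun b : Blk M nb o C => kd b = some (cl, 1)),
              (P b a * R b x).trace =
          - ∑ a ∈ A', ∑ x : (Fin N → Θ) × (Fin N → Fin q), D (fun k => x.1 k + a k (x.2 k)) *
            (if inF a cl then ww (sat cl x) (ls (jj a x) cl x) 1 else 0) := by
        rw [← Finset.sum_neg_distrib]
        refine Finset.sum_congr rfl fun a ha => ?_
        rw [← Finset.sum_neg_distrib]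
        refine Finset.sum_congr rfl fun x _ => ?_
        rw [hev (fun k => k = some (cl, 1)) a (hA' ha) x]
        have h3 : (∑ s : C × Fin 3, if some s = some (cl, 1) then
            (if inF a s.1 then ww (sat s.1 x) (ls (jj a x) s.1 x) s.2 else 0) else 0) =
            if inF a cl then ww (sat cl x) (ls (jj a x) cl x) 1 else 0 := by
          rw [Finset.sum_eq_single (cl, (1 : Fin 3))]
          · rw [if_pos rfl]
          · intro s _ hs
            rw [if_neg fun h => hs (Option.some.inj h)]
          · intro h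
            exact absurd (Finset.mem_univ _) h
        have h9 : ¬ ((none : Option (C × Fin 3)) = some (cl, 1)) := by simp
        rw [h3, if_neg h9, zero_add]
        by_cases h4 : inF a cl
        · rw [if_pos h4]
          by_cases h5 : ww (sat cl x) (ls (jj a x) cl x) 1 = 0
          · rw [h5]
            ring
          · rw [if_pos (hviol a cl x h4 (ww_viol _ _ 1 (by decide) h5))]
            ring
        · rw [if_neg h4]
          ring
      rw [h2] at h1
      linarith)
    (fun cl => by
      have h1 := hmain Mx (fun z => if V cl z then D z else 0)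
        (univ.filter (fun b : Blk M nb o C => kd b = some (cl, 2))) hMx0
        (fun z => by
          split_ifs
          · exact hDM z
          · rw [abs_zero]
            exact hMx0) (hV cl).1
      rw [← hT] at h1
      refine h1.trans (le_of_eq ?_)
      refine Finset.sum_congr rfl fun a ha => Finset.sum_congr rfl fun x _ => ?_
      rw [hev (fun k => k = some (cl, 2)) a (hA' ha) x]
      have h3 : (∑ s : C × Fin 3, if some s = some (cl, 2) then
          (if inF a s.1 then ww (sat s.1 x) (ls (jj a x) s.1 x) s.2 else 0) else 0) =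
          if inF a cl then ww (sat cl x) (ls (jj a x) cl x) 2 else 0 := by
        rw [Finset.sum_eq_single (cl, (2 : Fin 3))]
        · rw [if_pos rfl]
        · intro s _ hs
          rw [if_neg fun h => hs (Option.some.inj h)]
        · intro h
          exact absurd (Finset.mem_univ _) h
      have h9 : ¬ ((none : Option (C × Fin 3)) = some (cl, 2)) := by simp
      rw [h3, if_neg h9, zero_add]
      by_cases h4 : inF a cl
      · rw [if_pos h4]
        by_cases h5 : ww (sat cl x) (ls (jj a x) cl x) 2 = 0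
        · rw [h5]
          ring
        · rw [if_pos (hviol a cl x h4 (ww_viol _ _ 2 (by decide) h5))]
      · rw [if_neg h4]
        ring)
  rw [← hc] at hb ⊢
  rw [← hE]
  obtain ⟨nX, hnX⟩ : ∃ nX : ℝ, nX = Fintype.card ((Fin N → Θ) × (Fin N → Fin q)) := ⟨_, rfl⟩
  have hnX0 : 0 < nX := by
    rw [hnX]
    exact_mod_cast Fintype.card_pos_iff.2 ⟨x0⟩
  have hnA : 0 < (A.card : ℝ) := by exact_mod_cast Finset.card_pos.2 ⟨a0, ha0⟩
  rw [← hnX] at hb hT
  by_cases hcase : A.card ≤ 2 * A'.card
  · left
    have h1 : (A.card : ℝ) ≤ 2 * A'.card := by exact_mod_cast hcase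
    have h2 : 3 / 8 * de * (A.card * nX) ≤ (2 * c + 2) * T := by
      refine le_trans ?_ hb
      have h3 : (A.card : ℝ) * nX ≤ 2 * (A'.card * nX) := by nlinarith
      nlinarith
    rw [hT] at h2
    obtain ⟨w, hw⟩ : ∃ w : ℝ, w = A.card * nX := ⟨_, rfl⟩
    have hw0 : 0 < w := by rw [hw]; positivity
    rw [← hw] at h2
    have h4 : 3 / 8 * de ≤ (2 * c + 2) * (2 * Mx * (2 * c + 1)) * E := by
      have : w * (3 / 8 * de) ≤ w * ((2 * c + 2) * (2 * Mx * (2 * c + 1)) * E) := by
        calc w * (3 / 8 * de) = 3 / 8 * de * w := by ring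
          _ ≤ _ := h2
          _ = _ := by ring
      exact le_of_mul_le_mul_left this hw0
    obtain ⟨Z, hZ⟩ : ∃ Z : ℝ, Z = (c + 1) * Mx * (2 * c + 1) * E := ⟨_, rfl⟩
    have h5 : (2 * c + 2) * (2 * Mx * (2 * c + 1)) * E = 4 * Z := by rw [hZ]; ring
    have h6 : 11 * (c + 1) * Mx * (2 * c + 1) * E = 11 * Z := by rw [hZ]; ring
    rw [h5] at h4
    rw [h6]
    linarith
  · right
    have h1 : A.card ≤ 2 * (A \ A').card := by
      rw [Finset.card_sdiff_of_subset hA']
      omega
    have h2 : (A.card : ℝ) ≤ 2 * (A \ A').card := by exact_mod_cast h1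
    have h3 := card_blk (M := M) (nb := nb) (o := o) (C := C)
    rw [← hc] at h3
    have h4 : (Fintype.card (Blk M nb o C) : ℝ) ≤ (3 * c + 1) * W :=
      h3.trans (mul_le_mul_of_nonneg_left hW (by linarith))
    have h5 : (0 : ℝ) ≤ Fintype.card (Fin N → Fin q → Θ) := by positivity
    calc (A.card : ℝ) * LAM ≤ 2 * (A \ A').card * LAM :=
          mul_le_mul_of_nonneg_right h2 (by linarith)
      _ = 2 * ((A \ A').card * LAM) := by ring
      _ ≤ 2 * ((Fintype.card (Blk M nb o C) : ℝ) * Fintype.card (Fin N → Fin q → Θ)) := by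
          linarith
      _ ≤ 2 * (((3 * c + 1) * W) * Fintype.card (Fin N → Fin q → Θ)) := by
          have := mul_le_mul_of_nonneg_right h4 h5
          linarith
      _ = _ := by ring

end Pool.Agent.H54.UV
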