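import Pool.Agent.H91.UV.TargetsB

/-!
# ABSU, part 1: block families and the bookkeeping (helper54)
-/

namespace Pool.Agent.H54.UV

open Finset Matrix

/-- block indices: psd blocks of positive order, the constant, three blocks for every clause -/
abbrev Blk (M : ℕ) (nb : Fin M → ℕ) (o : (j : Fin M) → Fin (nb j) → ℕ) (C : Type) : Type :=
  Σ j : Fin M, ({i : Fin (nb j) // 0 < o j i} ⊕ (Unit ⊕ C × Fin 3))

section

variable {M : ℕ} {nb : Fin M → ℕ} {o : (j : Fin M) → Fin (nb j) → ℕ} {C : Type}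

/-- order of the block -/
def rk : Blk M nb o C → ℕ
  | ⟨j, .inl i⟩ => o j i.1
  | ⟨_, .inr _⟩ => 1

/-- kind of the block -/
def kd : Blk M nb o C → Option (C × Fin 3)
  | ⟨_, .inl _⟩ => none
  | ⟨_, .inr (.inl _)⟩ => none
  | ⟨_, .inr (.inr s)⟩ => some s

/-- family of matrices -/
def mk (f : (j : Fin M) → (i : Fin (nb j)) → Matrix (Fin (o j i)) (Fin (o j i)) ℝ)
    (g : Fin M → ℝ) (h : Fin M → C × Fin 3 → ℝ) :
    (b : Blk M nb o C) → Matrix (Fin (rk b)) (Fin (rk b)) ℝ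
  | ⟨j, .inl i⟩ => f j i.1
  | ⟨j, .inr (.inl _)⟩ => g j • (1 : Matrix (Fin 1) (Fin 1) ℝ)
  | ⟨j, .inr (.inr s)⟩ => h j s • (1 : Matrix (Fin 1) (Fin 1) ℝ)

theorem mk_psd (f : (j : Fin M) → (i : Fin (nb j)) → Matrix (Fin (o j i)) (Fin (o j i)) ℝ)
    (g : Fin M → ℝ) (h : Fin M → C × Fin 3 → ℝ) (hf : ∀ j i, (f j i).PosSemidef)
    (hg : ∀ j, 0 ≤ g j) (hh : ∀ j s, 0 ≤ h j s) (b : Blk M nb o C) : (mk f g h b).PosSemidef := by
  rcases b with ⟨j, i | u | s⟩
  · exact hf j i.1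
  · exact PosSemidef.one.smul (hg j)
  · exact PosSemidef.one.smul (hh j s)

theorem mk_zero (f : (j : Fin M) → (i : Fin (nb j)) → Matrix (Fin (o j i)) (Fin (o j i)) ℝ)
    (g : Fin M → ℝ) (h : Fin M → C × Fin 3 → ℝ) (b : Blk M nb o C) (hf : ∀ i, f b.1 i = 0)
    (hg : g b.1 = 0) (hh : ∀ s, h b.1 s = 0) : mk f g h b = 0 := by
  rcases b with ⟨j, i | u | s⟩
  · exact hf i.1
  · change g j • (1 : Matrix (Fin 1) (Fin 1) ℝ) = 0
    have hg' : g j = 0 := hg
    rw [hg', zero_smul]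
  · change h j s • (1 : Matrix (Fin 1) (Fin 1) ℝ) = 0
    have hh' : h j s = 0 := hh s
    rw [hh', zero_smul]

/-- sums of traces over the blocks of certain kinds -/
theorem sum_mk [Fintype C] (f f' : (j : Fin M) → (i : Fin (nb j)) →
      Matrix (Fin (o j i)) (Fin (o j i)) ℝ)
    (g g' : Fin M → ℝ) (h h' : Fin M → C × Fin 3 → ℝ) (Q : Option (C × Fin 3) → Prop)
    [DecidablePred Q] :
    ∑ b ∈ univ.filter (fun b : Blk M nb o C => Q (kd b)), (mk f g h b * mk f' g' h' b).trace =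
      ∑ j, ((if Q none then ∑ i, (f j i * f' j i).trace + g j * g' j else 0) +
        ∑ s, if Q (some s) then h j s * h' j s else 0) := by
  classical
  rw [Finset.sum_filter, Fintype.sum_sigma]
  refine Finset.sum_congr rfl fun j _ => ?_
  rw [Fintype.sum_sum_type, Fintype.sum_sum_type]
  have h1 : ∑ i : {i : Fin (nb j) // 0 < o j i},
      (if Q (kd (⟨j, .inl i⟩ : Blk M nb o C)) then
        (mk f g h (⟨j, .inl i⟩ : Blk M nb o C) * mk f' g' h' ⟨j, .inl i⟩).trace else 0) =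
      if Q none then ∑ i, (f j i * f' j i).trace else 0 := by
    change ∑ i : {i : Fin (nb j) // 0 < o j i},
      (if Q none then (f j i.1 * f' j i.1).trace else 0) = _
    by_cases hQ : Q none
    · simp only [if_pos hQ]
      have e := Finset.sum_subtype (F := inferInstance)
        (univ.filter (fun i : Fin (nb j) => 0 < o j i))
        (p := fun i => 0 < o j i) (fun x => by simp) (fun i => (f j i * f' j i).trace)
      rw [← e, Finset.sum_filter]
      refine Finset.sum_congr rfl fun i _ => ?_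
      by_cases hi : 0 < o j i
      · rw [if_pos hi]
      · rw [if_neg hi]
        have h0 : o j i = 0 := by omega
        unfold Matrix.trace
        refine (Finset.sum_eq_zero fun x _ => ?_).symm
        exact absurd x.2 (by omega)
    · simp only [if_neg hQ, Finset.sum_const_zero]
  have h2 : ∑ u : Unit, (if Q (kd (⟨j, .inr (.inl u)⟩ : Blk M nb o C)) then
        (mk f g h (⟨j, .inr (.inl u)⟩ : Blk M nb o C) * mk f' g' h' ⟨j, .inr (.inl u)⟩).trace
        else 0) = if Q none then g j * g' j else 0 := by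
    rw [Fintype.sum_unique]
    change (if Q none then ((g j • (1 : Matrix (Fin 1) (Fin 1) ℝ)) *
      (g' j • (1 : Matrix (Fin 1) (Fin 1) ℝ))).trace else 0) = _
    rw [Matrix.smul_mul, Matrix.mul_smul, Matrix.one_mul, Matrix.trace_smul, Matrix.trace_smul,
      Matrix.trace_one, Fintype.card_fin]
    simp
  have h3 : ∀ s : C × Fin 3, (if Q (kd (⟨j, .inr (.inr s)⟩ : Blk M nb o C)) then
        (mk f g h (⟨j, .inr (.inr s)⟩ : Blk M nb o C) * mk f' g' h' ⟨j, .inr (.inr s)⟩).trace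
        else 0) = if Q (some s) then h j s * h' j s else 0 := by
    intro s
    change (if Q (some s) then ((h j s • (1 : Matrix (Fin 1) (Fin 1) ℝ)) *
      (h' j s • (1 : Matrix (Fin 1) (Fin 1) ℝ))).trace else 0) = _
    rw [Matrix.smul_mul, Matrix.mul_smul, Matrix.one_mul, Matrix.trace_smul, Matrix.trace_smul,
      Matrix.trace_one, Fintype.card_fin]
    simp
  rw [h1, h2, Finset.sum_congr rfl fun s _ => h3 s, ← add_assoc]
  congr 1
  by_cases hQ : Q none
  · simp only [if_pos hQ]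
  · simp only [if_neg hQ, add_zero]

/-- the square sum of the orders -/
theorem sum_rk [Fintype C] (J : Finset (Fin M)) :
    ∑ b ∈ univ.filter (fun b : Blk M nb o C => b.1 ∈ J), (rk b : ℝ) ^ 2 ≤
      (3 * Fintype.card C + 1) * ∑ j ∈ J, (∑ i, (o j i : ℝ) ^ 2 + 1) := by
  classical
  have hj : ∀ j : Fin M, ∑ y : {i : Fin (nb j) // 0 < o j i} ⊕ (Unit ⊕ C × Fin 3),
      (rk (⟨j, y⟩ : Blk M nb o C) : ℝ) ^ 2 ≤
      (3 * Fintype.card C + 1) * (∑ i, (o j i : ℝ) ^ 2 + 1) := by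
    intro j
    rw [Fintype.sum_sum_type, Fintype.sum_sum_type]
    have e1 : ∑ i : {i : Fin (nb j) // 0 < o j i},
        (rk (⟨j, .inl i⟩ : Blk M nb o C) : ℝ) ^ 2 ≤ ∑ i, (o j i : ℝ) ^ 2 := by
      change ∑ i : {i : Fin (nb j) // 0 < o j i}, (o j i.1 : ℝ) ^ 2 ≤ _
      have e := Finset.sum_subtype (F := inferInstance)
        (univ.filter (fun i : Fin (nb j) => 0 < o j i))
        (p := fun i => 0 < o j i) (fun x => by simp) (fun i => (o j i : ℝ) ^ 2)
      rw [← e]
      exact Finset.sum_le_sum_of_subset_of_nonneg (Finset.filter_subset _ _)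
        fun _ _ _ => by positivity
    have e2 : ∑ u : Unit, (rk (⟨j, .inr (.inl u)⟩ : Blk M nb o C) : ℝ) ^ 2 = 1 := by
      rw [Fintype.sum_unique]
      change ((1 : ℕ) : ℝ) ^ 2 = 1
      norm_num
    have e3 : ∑ s : C × Fin 3, (rk (⟨j, .inr (.inr s)⟩ : Blk M nb o C) : ℝ) ^ 2 =
        3 * Fintype.card C := by
      change ∑ s : C × Fin 3, ((1 : ℕ) : ℝ) ^ 2 = _
      rw [Finset.sum_const, Finset.card_univ, Fintype.card_prod, Fintype.card_fin, nsmul_eq_mul]
      push_cast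
      ring
    rw [e2, e3]
    have h0 : (0 : ℝ) ≤ ∑ i, (o j i : ℝ) ^ 2 := by positivity
    have h1 : (0 : ℝ) ≤ (Fintype.card C : ℝ) := by positivity
    nlinarith [mul_nonneg h1 h0]
  rw [Finset.sum_filter, Fintype.sum_sigma, Finset.mul_sum]
  have h2 : ∀ j : Fin M, (∑ y : {i : Fin (nb j) // 0 < o j i} ⊕ (Unit ⊕ C × Fin 3),
      if (⟨j, y⟩ : Blk M nb o C).1 ∈ J then (rk (⟨j, y⟩ : Blk M nb o C) : ℝ) ^ 2 else 0) =
      if j ∈ J then ∑ y : {i : Fin (nb j) // 0 < o j i} ⊕ (Unit ⊕ C × Fin 3),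
        (rk (⟨j, y⟩ : Blk M nb o C) : ℝ) ^ 2 else 0 := by
    intro j
    by_cases hJ : j ∈ J
    · simp only [if_pos hJ]
    · simp only [if_neg hJ, Finset.sum_const_zero]
  rw [Finset.sum_congr rfl fun j _ => h2 j, ← Finset.sum_filter, Finset.filter_mem_eq_inter,
    Finset.univ_inter]
  exact Finset.sum_le_sum fun j _ => hj j

/-- the number of blocks -/
theorem card_blk [Fintype C] :
    (Fintype.card (Blk M nb o C) : ℝ) ≤
      (3 * Fintype.card C + 1) * ∑ j, (∑ i, (o j i : ℝ) ^ 2 + 1) := by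
  classical
  refine le_trans ?_ (sum_rk (nb := nb) (o := o) (C := C) univ)
  have h1 : (univ.filter (fun b : Blk M nb o C => b.1 ∈ (univ : Finset (Fin M)))) = univ := by
    ext b
    simp
  rw [h1]
  have h2 : (Fintype.card (Blk M nb o C) : ℝ) = ∑ _b : Blk M nb o C, (1 : ℝ) := by
    rw [Finset.sum_const, Finset.card_univ, nsmul_eq_mul, mul_one]
  rw [h2]
  refine Finset.sum_le_sum fun b _ => ?_
  have h3 : 1 ≤ rk b := by
    rcases b with ⟨j, i | u | s⟩
    · exact i.2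
    · exact le_refl _
    · exact le_refl _
  have h4 : (1 : ℝ) ≤ (rk b : ℝ) := by exact_mod_cast h3
  nlinarith

end

end Pool.Agent.H54.UV
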